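import Mathlib

set_option autoImplicit false

/-! # Game colouring number of powers of partial `k`-trees: the order of growth -/

namespace Pool.Agent.Results.MP_c9f8d2_co.OrderOfGrowth

open Finset

/-- `Forces H s n M a`: in the marking game on `H`, from the position in which the set `M` of
vertices is marked and `n` further moves are to be made, Alice to move if `a = true` and Bob to
move if `a = false`, Alice can force that every vertex marked from now on has at most `s - 1`
marked neighbours at the time it is marked -/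
def Forces {V : Type} [DecidableEq V] (H : SimpleGraph V) (s : ℕ) :
    ℕ → Finset V → Bool → Prop
  | 0, _, _ => True
  | n + 1, M, true => ∃ v, v ∉ M ∧ {u | u ∈ M ∧ H.Adj v u}.ncard + 1 ≤ s ∧
      Forces H s n (insert v M) false
  | n + 1, M, false => ∀ v, v ∉ M → {u | u ∈ M ∧ H.Adj v u}.ncard + 1 ≤ s ∧
      Forces H s n (insert v M) true

open Classical in
/-- the game colouring number: the least score that Alice can force in the marking game -/
noncomputable def colg {V : Type} [Fintype V] (H : SimpleGraph V) : ℕ :=
  sInf {s | Forces H s (Fintype.card V) ∅ true}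

/-- the `m`-th power of a graph -/
def power {V : Type} (G : SimpleGraph V) (m : ℕ) : SimpleGraph V where
  Adj u v := u ≠ v ∧ ∃ p : G.Walk u v, p.length ≤ m
  symm := ⟨fun _ _ h => ⟨h.1.symm, h.2.elim fun p hp => ⟨p.reverse, by simpa using hp⟩⟩⟩
  loopless := ⟨fun _ h => h.1 rfl⟩

/-- `T` is a `k`-tree: the vertices can be ordered (by `ρ`) so that the first `k + 1` vertices form
a clique and the neighbours of every other vertex preceding it form a clique of size `k` -/
def IsKTree {W : Type} (k : ℕ) (T : SimpleGraph W) : Prop :=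
  ∃ (ρ : W → ℕ) (K : Finset W), Function.Injective ρ ∧ K.card = k + 1 ∧ T.IsClique K ∧
    (∀ a ∈ K, ∀ b ∉ K, ρ a < ρ b) ∧
    ∀ v ∉ K, {u | T.Adj v u ∧ ρ u < ρ v}.ncard = k ∧ T.IsClique {u | T.Adj v u ∧ ρ u < ρ v}

/-- `G` is a partial `k`-tree: a subgraph of a `k`-tree -/
def IsPartialKTree {V : Type} (k : ℕ) (G : SimpleGraph V) : Prop :=
  ∃ (W : Type) (_ : Finite W) (T : SimpleGraph W) (f : V → W), IsKTree k T ∧
    Function.Injective f ∧ ∀ u v, G.Adj u v → T.Adj (f u) (f v)

/-- the quantity `f_{k,m}(Δ)`: the supremum of the game colouring numbers of the `m`-th powers of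
the partial `k`-trees of maximum degree at most `Δ` -/
noncomputable def fkm (k m Δ : ℕ) : ℕ :=
  sSup {s | ∃ (V : Type) (_ : Fintype V) (G : SimpleGraph V), IsPartialKTree k G ∧
    (∀ v, (G.neighborSet v).ncard ≤ Δ) ∧ s = colg (power G m)}

/-! ### The activation strategy -/

section activation

variable {V : Type} [Fintype V] [DecidableEq V] (H : SimpleGraph V) (σ : V → ℕ)

/-- the vertices before `y` which are adjacent to `y`, or have a common neighbour with `y` after
`y` -/
def Rset (y : V) : Set V :=
  {x | σ x < σ y ∧ (H.Adj x y ∨ ∃ z, σ y < σ z ∧ H.Adj z y ∧ H.Adj z x)}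

/-- the invariant of the activation strategy: `M` is the set of marked vertices, `A` the set of
active vertices, `g` the pointers -/
structure Inv (M A : Finset V) (g : V → Option V) : Prop where
  sub : M ⊆ A
  ptr : ∀ z ∈ A, ∀ v, v ∉ M → H.Adj z v → σ v < σ z →
    ∃ u, g z = some u ∧ H.Adj z u ∧ σ u ≤ σ v
  two : ∀ u, (A.filter (fun z => g z = some u)).card ≤ 2
  one : ∀ u, u ∉ M → (A.filter (fun z => g z = some u)).card ≤ 1
  zero : ∀ u, u ∉ A → (A.filter (fun z => g z = some u)).card = 0

variable {H σ}

theorem Inv.bound (hσ : Function.Injective σ) {D : ℕ} (hD : ∀ y, (Rset H σ y).ncard ≤ D)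
    {M A : Finset V} {g : V → Option V} (h : Inv H σ M A g) (v : V) (hv : v ∉ M) :
    {u | u ∈ M ∧ H.Adj v u}.ncard ≤ 3 * D + 1 := by
  classical
  -- split into vertices before and after `v`
  have h1 : {u | u ∈ M ∧ H.Adj v u} ⊆ Rset H σ v ∪
      ((insert v (Set.toFinite (Rset H σ v)).toFinset).biUnion
        (fun u => A.filter (fun z => g z = some u)) : Finset V) := by
    rintro u ⟨hu, hadj⟩
    rcases lt_trichotomy (σ u) (σ v) with hlt | heq | hgt
    · exact Or.inl ⟨hlt, Or.inl hadj.symm⟩
    · exact absurd (hσ heq) hadj.ne'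
    · right
      obtain ⟨w, hw1, hw2, hw3⟩ := h.ptr u (h.sub hu) v hv hadj.symm hgt
      rw [mem_coe, mem_biUnion]
      refine ⟨w, ?_, mem_filter.2 ⟨h.sub hu, hw1⟩⟩
      rw [mem_insert, Set.Finite.mem_toFinset]
      rcases eq_or_ne w v with hwv | hwv
      · exact Or.inl hwv
      · right
        refine ⟨lt_of_le_of_ne hw3 (fun he => hwv (hσ he)), Or.inr ⟨u, hgt, hadj.symm, hw2⟩⟩
  have h2 : ((insert v (Set.toFinite (Rset H σ v)).toFinset).biUnion
        (fun u => A.filter (fun z => g z = some u)) : Finset V).card ≤ 2 * D + 1 := by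
    rw [biUnion_insert]
    refine (card_union_le _ _).trans ?_
    have h3 := h.one v hv
    have h4 := card_biUnion_le_card_mul (Set.toFinite (Rset H σ v)).toFinset
      (fun u => A.filter (fun z => g z = some u)) 2 (fun u _ => h.two u)
    have h5 : (Set.toFinite (Rset H σ v)).toFinset.card ≤ D := by
      rw [← Set.ncard_eq_toFinset_card]
      exact hD v
    omega
  have h3 := Set.ncard_le_ncard h1 (Set.toFinite _)
  have h4 := Set.ncard_union_le (Rset H σ v) (((insert v (Set.toFinite
    (Rset H σ v)).toFinset).biUnion (fun u => A.filter (fun z => g z = some u)) : Finset V) :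
      Set V)
  rw [Set.ncard_coe_finset] at h4
  have h5 := hD v
  omega

/-- the chain of activations: the current vertex `x` is unmarked and has received one pointer more
than allowed -/
theorem chain (hσ : Function.Injective σ) {M : Finset V} :
    ∀ (n : ℕ) (A : Finset V) (g : V → Option V) (x : V), (univ \ A).card = n → x ∉ M →
      M ⊆ A →
      (∀ z ∈ A, ∀ v, v ∉ M → H.Adj z v → σ v < σ z →
        ∃ u, g z = some u ∧ H.Adj z u ∧ σ u ≤ σ v) →
      (∀ u, (A.filter (fun z => g z = some u)).card ≤ 2) →
      (∀ u, u ∉ M → u ≠ x → (A.filter (fun z => g z = some u)).card ≤ 1) →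
      (∀ u, u ∉ A → u ≠ x → (A.filter (fun z => g z = some u)).card = 0) →
      (x ∉ A → (A.filter (fun z => g z = some x)).card ≤ 1) →
      ∃ (a : V) (A' : Finset V) (g' : V → Option V), a ∉ M ∧ Inv H σ (insert a M) A' g' := by
  classical
  intro n
  induction n with
  | zero =>
    intro A g x hA hx hMA hptr htwo hone hzero hx1
    have hAu : A = univ := by
      rw [card_eq_zero, sdiff_eq_empty_iff_subset] at hA
      exact univ_subset_iff.1 hA
    refine ⟨x, A, g, hx, ⟨?_, ?_, htwo, ?_, ?_⟩⟩
    · rw [hAu]; exact subset_univ _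
    · intro z hz v hv hadj hlt
      exact hptr z hz v (fun h => hv (mem_insert_of_mem h)) hadj hlt
    · intro u hu
      rw [mem_insert, not_or] at hu
      exact hone u hu.2 hu.1
    · intro u hu
      rw [hAu] at hu
      exact absurd (mem_univ u) hu
  | succ n ih =>
    intro A g x hA hx hMA hptr htwo hone hzero hx1
    by_cases hxA : x ∈ A
    · -- mark `x`
      refine ⟨x, A, g, hx, ⟨?_, ?_, htwo, ?_, ?_⟩⟩
      · exact insert_subset hxA hMA
      · intro z hz v hv hadj hlt
        exact hptr z hz v (fun h => hv (mem_insert_of_mem h)) hadj hlt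
      · intro u hu
        rw [mem_insert, not_or] at hu
        exact hone u hu.2 hu.1
      · intro u hu
        exact hzero u hu (fun h => hu (h ▸ hxA))
    · -- activate `x`
      by_cases hb : ∃ v, v ∉ M ∧ H.Adj x v ∧ σ v < σ x
      · -- pointer to the least unmarked back-neighbour
        obtain ⟨y, hy, hymin⟩ := exists_min_image
          (univ.filter (fun v => v ∉ M ∧ H.Adj x v ∧ σ v < σ x)) σ (by
            obtain ⟨v, hv⟩ := hb
            exact ⟨v, mem_filter.2 ⟨mem_univ _, hv⟩⟩)
        rw [mem_filter] at hy
        obtain ⟨-, hyM, hxy, hyx⟩ := hy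
        have hfilter : ∀ u, ((insert x A).filter
            (fun z => Function.update g x (some y) z = some u)).card =
            (A.filter (fun z => g z = some u)).card + if u = y then 1 else 0 := by
          intro u
          have h1 : A.filter (fun z => Function.update g x (some y) z = some u) =
              A.filter (fun z => g z = some u) := by
            apply filter_congr
            intro z hz
            rw [Function.update_of_ne (by rintro rfl; exact hxA hz)]
          rw [filter_insert, Function.update_self]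
          by_cases huy : u = y
          · subst huy
            rw [if_pos rfl, if_pos rfl, h1, card_insert_of_notMem]
            exact fun h => hxA (mem_filter.1 h).1
          · rw [if_neg (fun h => huy (Option.some.inj h).symm), if_neg huy, h1, add_zero]
        refine ih (insert x A) (Function.update g x (some y)) y ?_ hyM
          (hMA.trans (subset_insert _ _)) ?_ ?_ ?_ ?_ ?_
        · have h1 : univ \ insert x A = (univ \ A).erase x := by
            ext z
            simp only [mem_sdiff, mem_univ, true_and, mem_insert, not_or, mem_erase]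
          rw [h1, card_erase_of_mem (by simp [hxA]), hA]
          rfl
        · intro z hz v hv hadj hlt
          by_cases hzx : z = x
          · subst hzx
            exact ⟨y, Function.update_self _ _ _, hxy,
              hymin v (mem_filter.2 ⟨mem_univ _, hv, hadj, hlt⟩)⟩
          · rw [Function.update_of_ne hzx]
            exact hptr z (mem_of_mem_insert_of_ne hz hzx) v hv hadj hlt
        · intro u
          rw [hfilter]
          by_cases huy : u = y
          · subst huy
            rw [if_pos rfl]
            have := hone u hyM (fun h => by rw [h] at hyx; exact lt_irrefl _ hyx)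
            omega
          · rw [if_neg huy]
            have := htwo u
            omega
        · intro u hu huy
          rw [hfilter, if_neg huy]
          by_cases hux : u = x
          · subst hux
            have := hx1 hxA
            omega
          · have := hone u hu hux
            omega
        · intro u hu huy
          rw [mem_insert, not_or] at hu
          rw [hfilter, if_neg huy]
          have := hzero u hu.2 hu.1
          omega
        · intro hyA
          rw [mem_insert, not_or] at hyA
          rw [hfilter, if_pos rfl]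
          have := hzero y hyA.2 hyA.1
          omega
      · -- no unmarked back-neighbour: mark `x`
        have hfilter : ∀ u, ((insert x A).filter
            (fun z => Function.update g x none z = some u)).card =
            (A.filter (fun z => g z = some u)).card := by
          intro u
          have h1 : A.filter (fun z => Function.update g x none z = some u) =
              A.filter (fun z => g z = some u) := by
            apply filter_congr
            intro z hz
            rw [Function.update_of_ne (by rintro rfl; exact hxA hz)]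
          rw [filter_insert, Function.update_self, if_neg (by simp), h1]
        refine ⟨x, insert x A, Function.update g x none, hx, ⟨?_, ?_, ?_, ?_, ?_⟩⟩
        · exact insert_subset_insert _ hMA
        · intro z hz v hv hadj hlt
          rw [mem_insert, not_or] at hv
          by_cases hzx : z = x
          · subst hzx
            exact absurd ⟨v, hv.2, hadj, hlt⟩ hb
          · rw [Function.update_of_ne hzx]
            exact hptr z (mem_of_mem_insert_of_ne hz hzx) v hv.2 hadj hlt
        · intro u
          rw [hfilter]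
          exact htwo u
        · intro u hu
          rw [mem_insert, not_or] at hu
          rw [hfilter]
          exact hone u hu.2 hu.1
        · intro u hu
          rw [mem_insert, not_or] at hu
          rw [hfilter]
          exact hzero u hu.2 hu.1

/-- a move of Alice when no chain of activations is to be followed -/
theorem free (hσ : Function.Injective σ) {M A : Finset V} {g : V → Option V}
    (h : Inv H σ M A g) (hne : ∃ v, v ∉ M) :
    ∃ (a : V) (A' : Finset V) (g' : V → Option V), a ∉ M ∧ Inv H σ (insert a M) A' g' := by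
  classical
  obtain ⟨y, hy, hymin⟩ := exists_min_image (univ.filter (fun v => v ∉ M)) σ (by
    obtain ⟨v, hv⟩ := hne
    exact ⟨v, mem_filter.2 ⟨mem_univ _, hv⟩⟩)
  have hyM : y ∉ M := (mem_filter.1 hy).2
  have hlow : ∀ v, v ∉ M → ¬ σ v < σ y := fun v hv hlt =>
    absurd (hymin v (mem_filter.2 ⟨mem_univ _, hv⟩)) (not_le.2 hlt)
  by_cases hyA : y ∈ A
  · refine ⟨y, A, g, hyM, ⟨insert_subset hyA h.sub, ?_, h.two, ?_, h.zero⟩⟩
    · intro z hz v hv hadj hlt
      exact h.ptr z hz v (fun h => hv (mem_insert_of_mem h)) hadj hlt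
    · intro u hu
      exact h.one u (fun h => hu (mem_insert_of_mem h))
  · have hfilter : ∀ u, ((insert y A).filter
        (fun z => Function.update g y none z = some u)).card =
        (A.filter (fun z => g z = some u)).card := by
      intro u
      have h1 : A.filter (fun z => Function.update g y none z = some u) =
          A.filter (fun z => g z = some u) := by
        apply filter_congr
        intro z hz
        rw [Function.update_of_ne (by rintro rfl; exact hyA hz)]
      rw [filter_insert, Function.update_self, if_neg (by simp), h1]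
    refine ⟨y, insert y A, Function.update g y none, hyM,
      ⟨insert_subset_insert _ h.sub, ?_, ?_, ?_, ?_⟩⟩
    · intro z hz v hv hadj hlt
      rw [mem_insert, not_or] at hv
      by_cases hzy : z = y
      · subst hzy
        exact absurd hlt (hlow v hv.2)
      · rw [Function.update_of_ne hzy]
        exact h.ptr z (mem_of_mem_insert_of_ne hz hzy) v hv.2 hadj hlt
    · intro u
      rw [hfilter]
      exact h.two u
    · intro u hu
      rw [hfilter]
      exact h.one u (fun h => hu (mem_insert_of_mem h))
    · intro u hu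
      rw [hfilter]
      exact h.zero u (fun h => hu (mem_insert_of_mem h))

/-- the answer of Alice to the move `b` of Bob -/
theorem answer (hσ : Function.Injective σ) {M A : Finset V} {g : V → Option V}
    (h : Inv H σ M A g) (b : V) (hb : b ∉ M) (hne : ∃ v, v ∉ insert b M) :
    ∃ (a : V) (A' : Finset V) (g' : V → Option V), a ∉ insert b M ∧
      Inv H σ (insert a (insert b M)) A' g' := by
  classical
  by_cases hbA : b ∈ A
  · refine free hσ (A := A) (g := g) ⟨insert_subset hbA h.sub, ?_, h.two, ?_, h.zero⟩ hne
    · intro z hz v hv hadj hlt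
      exact h.ptr z hz v (fun h => hv (mem_insert_of_mem h)) hadj hlt
    · intro u hu
      exact h.one u (fun h => hu (mem_insert_of_mem h))
  by_cases hex : ∃ v, v ∉ insert b M ∧ H.Adj b v ∧ σ v < σ b
  · obtain ⟨y, hy, hymin⟩ := exists_min_image
      (univ.filter (fun v => v ∉ insert b M ∧ H.Adj b v ∧ σ v < σ b)) σ (by
        obtain ⟨v, hv⟩ := hex
        exact ⟨v, mem_filter.2 ⟨mem_univ _, hv⟩⟩)
    rw [mem_filter] at hy
    obtain ⟨-, hyM, hxy, hyx⟩ := hy
    have hyM' : y ∉ M := fun h => hyM (mem_insert_of_mem h)
    have hfilter : ∀ u, ((insert b A).filter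
        (fun z => Function.update g b (some y) z = some u)).card =
        (A.filter (fun z => g z = some u)).card + if u = y then 1 else 0 := by
      intro u
      have h1 : A.filter (fun z => Function.update g b (some y) z = some u) =
          A.filter (fun z => g z = some u) := by
        apply filter_congr
        intro z hz
        rw [Function.update_of_ne (by rintro rfl; exact hbA hz)]
      rw [filter_insert, Function.update_self]
      by_cases huy : u = y
      · subst huy
        rw [if_pos rfl, if_pos rfl, h1, card_insert_of_notMem]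
        exact fun h => hbA (mem_filter.1 h).1
      · rw [if_neg (fun h => huy (Option.some.inj h).symm), if_neg huy, h1, add_zero]
    refine chain hσ (M := insert b M) _ (insert b A) (Function.update g b (some y)) y rfl hyM
      (insert_subset_insert _ h.sub) ?_ ?_ ?_ ?_ ?_
    · intro z hz v hv hadj hlt
      by_cases hzb : z = b
      · subst hzb
        exact ⟨y, Function.update_self _ _ _, hxy,
          hymin v (mem_filter.2 ⟨mem_univ _, hv, hadj, hlt⟩)⟩
      · rw [Function.update_of_ne hzb]
        exact h.ptr z (mem_of_mem_insert_of_ne hz hzb) v (fun h => hv (mem_insert_of_mem h))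
          hadj hlt
    · intro u
      rw [hfilter]
      by_cases huy : u = y
      · subst huy
        rw [if_pos rfl]
        have := h.one u hyM'
        omega
      · rw [if_neg huy]
        have := h.two u
        omega
    · intro u hu huy
      rw [hfilter, if_neg huy]
      have := h.one u (fun h => hu (mem_insert_of_mem h))
      omega
    · intro u hu huy
      rw [mem_insert, not_or] at hu
      rw [hfilter, if_neg huy]
      have := h.zero u hu.2
      omega
    · intro hyA
      rw [mem_insert, not_or] at hyA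
      rw [hfilter, if_pos rfl]
      have := h.zero y hyA.2
      omega
  · have hfilter : ∀ u, ((insert b A).filter
        (fun z => Function.update g b none z = some u)).card =
        (A.filter (fun z => g z = some u)).card := by
      intro u
      have h1 : A.filter (fun z => Function.update g b none z = some u) =
          A.filter (fun z => g z = some u) := by
        apply filter_congr
        intro z hz
        rw [Function.update_of_ne (by rintro rfl; exact hbA hz)]
      rw [filter_insert, Function.update_self, if_neg (by simp), h1]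
    refine free hσ (A := insert b A) (g := Function.update g b none)
      ⟨insert_subset_insert _ h.sub, ?_, ?_, ?_, ?_⟩ hne
    · intro z hz v hv hadj hlt
      by_cases hzb : z = b
      · subst hzb
        exact absurd ⟨v, hv, hadj, hlt⟩ hex
      · rw [Function.update_of_ne hzb]
        exact h.ptr z (mem_of_mem_insert_of_ne hz hzb) v (fun h => hv (mem_insert_of_mem h))
          hadj hlt
    · intro u
      rw [hfilter]
      exact h.two u
    · intro u hu
      rw [hfilter]
      exact h.one u (fun h => hu (mem_insert_of_mem h))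
    · intro u hu
      rw [hfilter]
      exact h.zero u (fun h => hu (mem_insert_of_mem h))

theorem forces_of_inv (hσ : Function.Injective σ) {D : ℕ}
    (hD : ∀ y, (Rset H σ y).ncard ≤ D) : ∀ (n : ℕ) (M : Finset V), n + M.card = Fintype.card V →
      (∃ A g, Inv H σ M A g) → Forces H (3 * D + 3) n M false := by
  intro n
  induction n using Nat.strong_induction_on with
  | _ n ih =>
    rintro M hM ⟨A, g, hinv⟩
    rcases n with _ | n
    · trivial
    · intro b hb
      refine ⟨?_, ?_⟩
      · have := hinv.bound hσ hD b hb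
        omega
      rcases n with _ | n
      · trivial
      · have hne : ∃ v, v ∉ insert b M := by
          by_contra hcon
          push Not at hcon
          have h1 : insert b M = univ := eq_univ_of_forall hcon
          have h2 := card_insert_of_notMem hb
          rw [h1, card_univ] at h2
          omega
        obtain ⟨a, A', g', ha, hinv'⟩ := answer hσ hinv b hb hne
        refine ⟨a, ha, ?_, ?_⟩
        · have h1 := hinv.bound hσ hD a (fun h => ha (mem_insert_of_mem h))
          have h2 : {u | u ∈ insert b M ∧ H.Adj a u} ⊆ insert b {u | u ∈ M ∧ H.Adj a u} := by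
            rintro u ⟨hu, hadj⟩
            rcases mem_insert.1 hu with rfl | hu
            · exact Or.inl rfl
            · exact Or.inr ⟨hu, hadj⟩
          have h3 := Set.ncard_le_ncard h2 (Set.toFinite _)
          have h4 := Set.ncard_insert_le b {u | u ∈ M ∧ H.Adj a u}
          omega
        · refine ih n (by omega) _ ?_ ⟨A', g', hinv'⟩
          rw [card_insert_of_notMem ha, card_insert_of_notMem hb]
          omega

theorem forces_start (hσ : Function.Injective σ) {D : ℕ}
    (hD : ∀ y, (Rset H σ y).ncard ≤ D) : Forces H (3 * D + 3) (Fintype.card V) ∅ true := by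
  classical
  rcases hn : Fintype.card V with _ | n
  · trivial
  · have : Nonempty V := Fintype.card_pos_iff.1 (by omega)
    obtain ⟨a, -, hamin⟩ := exists_min_image (univ : Finset V) σ univ_nonempty
    refine ⟨a, notMem_empty _, ?_, ?_⟩
    · simp
    · refine forces_of_inv hσ hD n _ ?_ ⟨{a}, fun _ => none, ⟨?_, ?_, ?_, ?_, ?_⟩⟩
      · simp [hn]
      · simp
      · intro z hz v _ _ hlt
        rw [mem_singleton] at hz
        subst hz
        exact absurd (hamin v (mem_univ _)) (not_le.2 hlt)
      · intro u; simp
      · intro u _; simp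
      · intro u _; simp

end activation

/-! ### Weak reachability in `k`-trees -/

/-- the vertices reachable from `u` by a path of length at most `j` along which `ρ` decreases -/
def Desc {W : Type} (T : SimpleGraph W) (ρ : W → ℕ) : ℕ → W → Set W
  | 0, u => {u}
  | j + 1, u => {u} ∪ ⋃ c ∈ {c | T.Adj u c ∧ ρ c < ρ u}, Desc T ρ j c

theorem mem_Desc_succ {W : Type} {T : SimpleGraph W} {ρ : W → ℕ} {j : ℕ} {u b : W} :
    b ∈ Desc T ρ (j + 1) u ↔ b = u ∨ ∃ c, T.Adj u c ∧ ρ c < ρ u ∧ b ∈ Desc T ρ j c := by
  simp only [Desc, Set.mem_union, Set.mem_singleton_iff, Set.mem_iUnion, Set.mem_ofPred_eq,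
    exists_prop, and_assoc]

theorem Desc_self {W : Type} {T : SimpleGraph W} {ρ : W → ℕ} (j : ℕ) (u : W) :
    u ∈ Desc T ρ j u := by
  rcases j with _ | j
  · rfl
  · exact mem_Desc_succ.2 (Or.inl rfl)

theorem Desc_mono {W : Type} {T : SimpleGraph W} {ρ : W → ℕ} : ∀ (j : ℕ) (u : W),
    Desc T ρ j u ⊆ Desc T ρ (j + 1) u := by
  intro j
  induction j with
  | zero =>
    intro u b hb
    exact mem_Desc_succ.2 (Or.inl hb)
  | succ j ih =>
    intro u b hb
    rcases mem_Desc_succ.1 hb with h | ⟨c, h1, h2, h3⟩
    · exact mem_Desc_succ.2 (Or.inl h)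
    · exact mem_Desc_succ.2 (Or.inr ⟨c, h1, h2, ih c h3⟩)

/-- shortcut lemma -/
theorem Desc_shortcut {W : Type} {T : SimpleGraph W} {ρ : W → ℕ} (hρ : Function.Injective ρ)
    (hcl : ∀ v a b, T.Adj v a → T.Adj v b → ρ a < ρ v → ρ b < ρ v → a ≠ b → T.Adj a b) :
    ∀ (j : ℕ) (u v b : W), T.Adj u v → ρ v < ρ u → ρ b ≤ ρ v → b ∈ Desc T ρ j u →
      b ∈ Desc T ρ j v := by
  intro j
  induction j with
  | zero =>
    intro u v b _ hlt hle hb
    have : b = u := hb
    subst this
    omega
  | succ j ih =>
    intro u v b hadj hlt hle hb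
    rcases mem_Desc_succ.1 hb with h | ⟨c, h1, h2, h3⟩
    · subst h
      omega
    · rcases lt_trichotomy (ρ c) (ρ v) with h4 | h4 | h4
      · have hne : v ≠ c := fun h => by rw [h] at h4; exact lt_irrefl _ h4
        exact mem_Desc_succ.2 (Or.inr ⟨c, hcl u v c hadj h1 hlt h2 hne, h4, h3⟩)
      · have : c = v := hρ h4
        subst this
        exact Desc_mono _ _ h3
      · have hne : c ≠ v := fun h => by rw [h] at h4; exact lt_irrefl _ h4
        exact Desc_mono _ _ (ih c v b (hcl u c v h1 hadj h2 hlt hne) h4 hle h3)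

theorem mem_Desc_of_walk {W : Type} {T : SimpleGraph W} {ρ : W → ℕ}
    (hρ : Function.Injective ρ)
    (hcl : ∀ v a b, T.Adj v a → T.Adj v b → ρ a < ρ v → ρ b < ρ v → a ≠ b → T.Adj a b)
    {a b : W} (p : T.Walk a b) (hp : ∀ x ∈ p.support, ρ b ≤ ρ x) :
    b ∈ Desc T ρ p.length a := by
  induction p with
  | nil => exact rfl
  | cons h p ih =>
    rename_i u v w
    have h1 : w ∈ Desc T ρ p.length v := ih (fun x hx => hp x (by
      rw [SimpleGraph.Walk.support_cons]
      exact List.mem_cons_of_mem _ hx))
    have h2 : ρ w ≤ ρ u := hp u (SimpleGraph.Walk.start_mem_support _)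
    rw [SimpleGraph.Walk.length_cons]
    rcases lt_trichotomy (ρ v) (ρ u) with h3 | h3 | h3
    · exact mem_Desc_succ.2 (Or.inr ⟨v, h, h3, h1⟩)
    · exact absurd (hρ h3) h.ne'
    · exact Desc_mono _ _ (Desc_shortcut hρ hcl _ v u w h.symm h3 h2 h1)

/-- the bound on the number of weakly reachable vertices -/
def wb (k : ℕ) : ℕ → ℕ
  | 0 => 1
  | j + 1 => 1 + k * wb k j

theorem Desc_card {W : Type} [Finite W] {T : SimpleGraph W} {ρ : W → ℕ} {k : ℕ}
    (hk : ∀ v, {u | T.Adj v u ∧ ρ u < ρ v}.ncard ≤ k) : ∀ (j : ℕ) (u : W),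
      (Desc T ρ j u).ncard ≤ wb k j := by
  classical
  intro j
  induction j with
  | zero =>
    intro u
    simp [Desc, wb]
  | succ j ih =>
    intro u
    refine (Set.ncard_union_le _ _).trans ?_
    have h1 : ((⋃ c ∈ {c | T.Adj u c ∧ ρ c < ρ u}, Desc T ρ j c) : Set W).ncard ≤
        k * wb k j := by
      have hfin : {c | T.Adj u c ∧ ρ c < ρ u}.Finite := Set.toFinite _
      have h2 : (⋃ c ∈ {c | T.Adj u c ∧ ρ c < ρ u}, Desc T ρ j c) =
          ((hfin.toFinset.biUnion (fun c => (Set.toFinite (Desc T ρ j c)).toFinset) : Finset W) :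
            Set W) := by
        ext x
        simp
      rw [h2, Set.ncard_coe_finset]
      refine (card_biUnion_le_card_mul _ _ (wb k j) ?_).trans ?_
      · intro c _
        rw [← Set.ncard_eq_toFinset_card]
        exact ih c
      · apply Nat.mul_le_mul_right
        rw [← Set.ncard_eq_toFinset_card]
        exact hk u
    have h3 : ({u} : Set W).ncard = 1 := Set.ncard_singleton u
    simp only [wb]
    omega

/-! ### Balls -/

/-- the bound on the size of balls -/
def bb (Δ : ℕ) : ℕ → ℕ
  | 0 => 1
  | j + 1 => 1 + Δ * bb Δ j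

theorem bb_le {Δ : ℕ} (hΔ : 1 ≤ Δ) (j : ℕ) : bb Δ j ≤ (j + 1) * Δ ^ j := by
  induction j with
  | zero => simp [bb]
  | succ j ih =>
    have h1 : 1 ≤ Δ ^ (j + 1) := Nat.one_le_pow _ _ hΔ
    calc bb Δ (j + 1) = 1 + Δ * bb Δ j := rfl
      _ ≤ 1 + Δ * ((j + 1) * Δ ^ j) := by gcongr
      _ = 1 + (j + 1) * Δ ^ (j + 1) := by ring
      _ ≤ Δ ^ (j + 1) + (j + 1) * Δ ^ (j + 1) := by omega
      _ = (j + 1 + 1) * Δ ^ (j + 1) := by ring

theorem ball_card {V : Type} [Finite V] {G : SimpleGraph V} {Δ : ℕ}
    (hΔ : ∀ v, (G.neighborSet v).ncard ≤ Δ) : ∀ (j : ℕ) (w : V),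
      {x | ∃ p : G.Walk w x, p.length ≤ j}.ncard ≤ bb Δ j := by
  classical
  intro j
  induction j with
  | zero =>
    intro w
    have h1 : {x | ∃ p : G.Walk w x, p.length ≤ 0} ⊆ {w} := by
      rintro x ⟨p, hp⟩
      have := SimpleGraph.Walk.eq_of_length_eq_zero (Nat.le_zero.1 hp)
      exact this.symm
    have h2 := Set.ncard_le_ncard h1 (Set.toFinite _)
    rw [Set.ncard_singleton] at h2
    exact h2
  | succ j ih =>
    intro w
    have hfin : (G.neighborSet w).Finite := Set.toFinite _
    have h1 : {x | ∃ p : G.Walk w x, p.length ≤ j + 1} ⊆ {w} ∪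
        ((hfin.toFinset.biUnion
          (fun c => (Set.toFinite {x | ∃ p : G.Walk c x, p.length ≤ j}).toFinset) : Finset V) :
            Set V) := by
      rintro x ⟨p, hp⟩
      cases p with
      | nil => exact Or.inl rfl
      | cons h p =>
        rename_i v
        right
        rw [mem_coe, mem_biUnion]
        refine ⟨v, ?_, ?_⟩
        · rw [Set.Finite.mem_toFinset]
          exact h
        · rw [Set.Finite.mem_toFinset]
          rw [SimpleGraph.Walk.length_cons] at hp
          exact ⟨p, by omega⟩
    refine (Set.ncard_le_ncard h1 (Set.toFinite _)).trans ?_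
    refine (Set.ncard_union_le _ _).trans ?_
    rw [Set.ncard_singleton, Set.ncard_coe_finset]
    have h2 := card_biUnion_le_card_mul hfin.toFinset
      (fun c => (Set.toFinite {x | ∃ p : G.Walk c x, p.length ≤ j}).toFinset) (bb Δ j) (by
        intro c _
        rw [← Set.ncard_eq_toFinset_card]
        exact ih c)
    have h3 : hfin.toFinset.card ≤ Δ := by
      rw [← Set.ncard_eq_toFinset_card]
      exact hΔ w
    have h4 := Nat.mul_le_mul_right (bb Δ j) h3
    simp only [bb]
    omega

/-- every vertex of a walk of length at most `m` is at distance at most `m / 2` from one of the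
two ends -/
theorem half {V : Type} {G : SimpleGraph V} {a b : V} (p : G.Walk a b) (m : ℕ)
    (hp : p.length ≤ m) (u : V) (hu : u ∈ p.support) :
    (∃ q : G.Walk a u, q.length ≤ m / 2) ∨ ∃ q : G.Walk b u, q.length ≤ m / 2 := by
  classical
  have h1 : (p.takeUntil u hu).length + (p.dropUntil u hu).length = p.length := by
    have := congrArg SimpleGraph.Walk.length (p.take_spec hu)
    rwa [SimpleGraph.Walk.length_append] at this
  by_cases h2 : (p.takeUntil u hu).length ≤ m / 2
  · exact Or.inl ⟨_, h2⟩
  · refine Or.inr ⟨(p.dropUntil u hu).reverse, ?_⟩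
    rw [SimpleGraph.Walk.length_reverse]
    omega

/-! ### The upper bound -/

theorem ktree_props {W : Type} [Finite W] {k : ℕ} {T : SimpleGraph W} {ρ : W → ℕ} {K : Finset W}
    (hKc : K.card = k + 1) (hKcl : T.IsClique K)
    (hK : ∀ a ∈ K, ∀ b ∉ K, ρ a < ρ b)
    (hv : ∀ v ∉ K, {u | T.Adj v u ∧ ρ u < ρ v}.ncard = k ∧ T.IsClique {u | T.Adj v u ∧ ρ u < ρ v}) :
    (∀ v, {u | T.Adj v u ∧ ρ u < ρ v}.ncard ≤ k) ∧
    ∀ v a b, T.Adj v a → T.Adj v b → ρ a < ρ v → ρ b < ρ v → a ≠ b → T.Adj a b := by
  classical
  have hin : ∀ v ∈ K, ∀ u, ρ u < ρ v → u ∈ K := by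
    intro v hvK u hlt
    by_contra hu
    have := hK v hvK u hu
    omega
  constructor
  · intro v
    by_cases hvK : v ∈ K
    · have h1 : {u | T.Adj v u ∧ ρ u < ρ v} ⊆ ((K.erase v : Finset W) : Set W) := by
        rintro u ⟨hadj, hlt⟩
        rw [mem_coe, mem_erase]
        exact ⟨hadj.ne', hin v hvK u hlt⟩
      have h2 := Set.ncard_le_ncard h1 (Set.toFinite _)
      rw [Set.ncard_coe_finset, card_erase_of_mem hvK, hKc] at h2
      omega
    · exact (hv v hvK).1.le
  · intro v a b ha hb hla hlb hab
    by_cases hvK : v ∈ K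
    · exact hKcl (hin v hvK a hla) (hin v hvK b hlb) hab
    · exact (hv v hvK).2 ⟨ha, hla⟩ ⟨hb, hlb⟩ hab

theorem upper {V : Type} [Fintype V] {G : SimpleGraph V} {k m Δ : ℕ} (hΔ : 1 ≤ Δ)
    (hG : IsPartialKTree k G) (hdeg : ∀ v, (G.neighborSet v).ncard ≤ Δ) :
    colg (power G m) ≤ 3 * (wb k (2 * m + m / 2) * ((m / 2 + 1) * Δ ^ (m / 2))) + 3 := by
  classical
  obtain ⟨W, _, T, f, ⟨ρ, K, hρ, hKc, hKcl, hK, hv⟩, hf, hfadj⟩ := hG
  obtain ⟨hk, hcl⟩ := ktree_props hKc hKcl hK hv
  -- the least vertex in the ball of radius `m / 2`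
  have htop : ∀ v : V, ∃ t : V, (∃ p : G.Walk v t, p.length ≤ m / 2) ∧
      ∀ x, (∃ p : G.Walk v x, p.length ≤ m / 2) → ρ (f t) ≤ ρ (f x) := by
    intro v
    obtain ⟨t, ht, hmin⟩ := Set.exists_min_image {x | ∃ p : G.Walk v x, p.length ≤ m / 2}
      (fun x => ρ (f x)) (Set.toFinite _) ⟨v, SimpleGraph.Walk.nil, by simp⟩
    exact ⟨t, ht, hmin⟩
  choose top htop1 htop2 using htop
  obtain ⟨N, hN⟩ : ∃ N, ∀ v, ρ (f v) < N :=
    ⟨(∑ v, ρ (f v)) + 1, fun v => Nat.lt_succ_of_le
      (Finset.single_le_sum (f := fun v => ρ (f v)) (fun _ _ => Nat.zero_le _) (mem_univ v))⟩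
  let σ : V → ℕ := fun v => ρ (f (top v)) * N + ρ (f v)
  have hσle : ∀ x y, σ x ≤ σ y → ρ (f (top x)) ≤ ρ (f (top y)) := by
    intro x y hxy
    by_contra hcon
    push Not at hcon
    have h1 : (ρ (f (top y)) + 1) * N ≤ ρ (f (top x)) * N := Nat.mul_le_mul_right _ hcon
    have h2 := hN y
    have h3 : (ρ (f (top y)) + 1) * N = ρ (f (top y)) * N + N := by ring
    simp only [σ] at hxy
    omega
  have hσ : Function.Injective σ := by
    intro x y hxy
    have h1 : ρ (f (top x)) = ρ (f (top y)) :=
      le_antisymm (hσle x y hxy.le) (hσle y x hxy.ge)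
    simp only [σ, h1] at hxy
    exact hf (hρ (by omega))
  -- the map to the `k`-tree
  let F : G →g T := ⟨f, fun h => hfadj _ _ h⟩
  have hreach : ∀ (y w : V) (p : G.Walk y w), p.length ≤ 2 * m + m / 2 →
      (∀ u ∈ p.support, ρ (f w) ≤ ρ (f u)) → f w ∈ Desc T ρ (2 * m + m / 2) (f y) := by
    intro y w p hp hsupp
    have h1 := mem_Desc_of_walk hρ hcl (p.map F) (by
      intro x hx
      rw [SimpleGraph.Walk.support_map, List.mem_map] at hx
      obtain ⟨u, hu, rfl⟩ := hx
      exact hsupp u hu)
    rw [SimpleGraph.Walk.length_map] at h1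
    have hmono : ∀ i j, i ≤ j → Desc T ρ i (f y) ⊆ Desc T ρ j (f y) := by
      intro i j hij
      induction hij with
      | refl => exact subset_rfl
      | step _ ih => exact ih.trans (Desc_mono _ _)
    exact hmono _ _ hp h1
  have hR : ∀ y, (Rset (power G m) σ y).ncard ≤
      wb k (2 * m + m / 2) * ((m / 2 + 1) * Δ ^ (m / 2)) := by
    intro y
    have hfin : {w : V | f w ∈ Desc T ρ (2 * m + m / 2) (f y)}.Finite := Set.toFinite _
    have h1 : Rset (power G m) σ y ⊆ ((hfin.toFinset.biUnion
        (fun w => (Set.toFinite {x | ∃ p : G.Walk w x, p.length ≤ m / 2}).toFinset) :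
          Finset V) : Set V) := by
      rintro x ⟨hlt, hx⟩
      have hxy := hσle x y hlt.le
      rw [mem_coe, mem_biUnion]
      obtain ⟨q, hq⟩ := htop1 x
      refine ⟨top x, ?_, ?_⟩
      swap
      · rw [Set.Finite.mem_toFinset]
        exact ⟨q.reverse, by rw [SimpleGraph.Walk.length_reverse]; exact hq⟩
      rw [Set.Finite.mem_toFinset, Set.mem_ofPred_eq]
      -- all vertices near `x`, `y` or `z` are not before `top x`
      have hqs : ∀ u ∈ q.support, ρ (f (top x)) ≤ ρ (f u) := by
        intro u hu
        refine htop2 x u ⟨q.takeUntil u hu, ?_⟩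
        exact (SimpleGraph.Walk.length_takeUntil_le_length _ _).trans hq
      rcases hx with ⟨-, p, hp⟩ | ⟨z, hyz, ⟨-, p1, hp1⟩, ⟨-, p2, hp2⟩⟩
      · refine hreach y (top x) (p.reverse.append q) ?_ ?_
        · rw [SimpleGraph.Walk.length_append, SimpleGraph.Walk.length_reverse]
          omega
        · intro u hu
          rw [SimpleGraph.Walk.mem_support_append_iff] at hu
          rcases hu with hu | hu
          · rcases half p.reverse m (by rw [SimpleGraph.Walk.length_reverse]; exact hp) u hu with
              h | h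
            · exact hxy.trans (htop2 y u h)
            · exact htop2 x u h
          · exact hqs u hu
      · have hyz' := hσle y z hyz.le
        refine hreach y (top x) (p1.reverse.append (p2.append q)) ?_ ?_
        · rw [SimpleGraph.Walk.length_append, SimpleGraph.Walk.length_append,
            SimpleGraph.Walk.length_reverse]
          omega
        · intro u hu
          rw [SimpleGraph.Walk.mem_support_append_iff,
            SimpleGraph.Walk.mem_support_append_iff] at hu
          rcases hu with hu | hu | hu
          · rcases half p1.reverse m (by rw [SimpleGraph.Walk.length_reverse]; exact hp1) u hu with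
              h | h
            · exact hxy.trans (htop2 y u h)
            · exact (hxy.trans hyz').trans (htop2 z u h)
          · rcases half p2 m hp2 u hu with h | h
            · exact (hxy.trans hyz').trans (htop2 z u h)
            · exact htop2 x u h
          · exact hqs u hu
    have h2 := Set.ncard_le_ncard h1 (Set.toFinite _)
    rw [Set.ncard_coe_finset] at h2
    refine h2.trans ((card_biUnion_le_card_mul _ _ (bb Δ (m / 2)) ?_).trans ?_)
    · intro w _
      rw [← Set.ncard_eq_toFinset_card]
      exact ball_card hdeg _ _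
    · apply Nat.mul_le_mul
      · rw [← Set.ncard_eq_toFinset_card]
        refine le_trans ?_ (Desc_card hk (2 * m + m / 2) (f y))
        have h3 : {w : V | f w ∈ Desc T ρ (2 * m + m / 2) (f y)} =
            f ⁻¹' (Desc T ρ (2 * m + m / 2) (f y)) := rfl
        rw [h3]
        refine Set.ncard_le_ncard_of_injOn f (fun w hw => hw) (hf.injOn) (Set.toFinite _)
      · exact bb_le hΔ _
  exact Nat.sInf_le (forces_start hσ hR)

/-! ### The lower bound -/

theorem forces_complete {V : Type} [Fintype V] [DecidableEq V] {H : SimpleGraph V} {s : ℕ}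
    (hH : ∀ u v, u ≠ v → H.Adj u v) : ∀ (n : ℕ) (M : Finset V) (t : Bool),
      n + 1 + M.card = Fintype.card V → Forces H s (n + 1) M t → Fintype.card V ≤ s := by
  intro n
  induction n with
  | zero =>
    intro M t hM hF
    have key : ∀ v, v ∉ M → {u | u ∈ M ∧ H.Adj v u}.ncard = M.card := by
      intro v hv
      have h1 : {u | u ∈ M ∧ H.Adj v u} = (M : Set V) := by
        ext u
        constructor
        · exact fun h => h.1
        · exact fun h => ⟨h, hH v u (fun he => hv (he ▸ h))⟩
      rw [h1, Set.ncard_coe_finset]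
    cases t with
    | true =>
      obtain ⟨v, hv, h1, -⟩ := hF
      rw [key v hv] at h1
      omega
    | false =>
      have hne : ∃ v, v ∉ M := by
        by_contra hcon
        push Not at hcon
        have h1 : M = univ := eq_univ_of_forall hcon
        rw [h1, card_univ] at hM
        omega
      obtain ⟨v, hv⟩ := hne
      have h1 := (hF v hv).1
      rw [key v hv] at h1
      omega
  | succ n ih =>
    intro M t hM hF
    cases t with
    | true =>
      obtain ⟨v, hv, -, h2⟩ := hF
      exact ih (insert v M) false (by rw [card_insert_of_notMem hv]; omega) h2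
    | false =>
      have hne : ∃ v, v ∉ M := by
        by_contra hcon
        push Not at hcon
        have h1 : M = univ := eq_univ_of_forall hcon
        rw [h1, card_univ] at hM
        omega
      obtain ⟨v, hv⟩ := hne
      exact ih (insert v M) true (by rw [card_insert_of_notMem hv]; omega) (hF v hv).2

/-- the vertices of the tree: words of length at most `r` over an alphabet of `b` letters -/
abbrev TV (b r : ℕ) : Type := {l : List (Fin b) // l.length ≤ r}

noncomputable instance (b r : ℕ) : Fintype (TV b r) :=
  (List.finite_length_le (Fin b) r).fintype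

/-- the tree: two words are adjacent if one is obtained from the other by adding a letter -/
def TG (b r : ℕ) : SimpleGraph (TV b r) where
  Adj u v := (∃ a, u.1 = a :: v.1) ∨ ∃ a, v.1 = a :: u.1
  symm := ⟨fun _ _ h => h.symm⟩
  loopless := ⟨fun u h => by
    rcases h with ⟨a, h⟩ | ⟨a, h⟩ <;>
    · have := congrArg List.length h
      rw [List.length_cons] at this
      omega⟩

/-- the root of the tree -/
def rt (b r : ℕ) : TV b r := ⟨[], Nat.zero_le _⟩

theorem walk_root {b r : ℕ} : ∀ (l : List (Fin b)) (h : l.length ≤ r),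
    ∃ p : (TG b r).Walk ⟨l, h⟩ (rt b r), p.length = l.length := by
  intro l
  induction l with
  | nil => intro h; exact ⟨SimpleGraph.Walk.nil, rfl⟩
  | cons a l ih =>
    intro h
    have h' : l.length ≤ r := by rw [List.length_cons] at h; omega
    obtain ⟨p, hp⟩ := ih h'
    have hadj : (TG b r).Adj ⟨a :: l, h⟩ ⟨l, h'⟩ := Or.inl ⟨a, rfl⟩
    exact ⟨SimpleGraph.Walk.cons hadj p, by
      rw [SimpleGraph.Walk.length_cons, hp, List.length_cons]⟩

theorem TG_power {b r m : ℕ} (hm : 2 * r ≤ m) (u v : TV b r) (huv : u ≠ v) :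
    (power (TG b r) m).Adj u v := by
  obtain ⟨p, hp⟩ := walk_root u.1 u.2
  obtain ⟨q, hq⟩ := walk_root v.1 v.2
  refine ⟨huv, p.append q.reverse, ?_⟩
  rw [SimpleGraph.Walk.length_append, SimpleGraph.Walk.length_reverse]
  have := u.2
  have := v.2
  omega

theorem TG_deg {b r : ℕ} (u : TV b r) : ((TG b r).neighborSet u).ncard ≤ b + 1 := by
  classical
  have h1 : Subtype.val '' ((TG b r).neighborSet u) ⊆
      insert u.1.tail ((fun a : Fin b => a :: u.1) '' Set.univ) := by
    rintro _ ⟨v, hv, rfl⟩
    rcases hv with ⟨a, h⟩ | ⟨a, h⟩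
    · left
      rw [h, List.tail_cons]
    · right
      exact ⟨a, Set.mem_univ _, h.symm⟩
  have h2 := Set.ncard_le_ncard h1 ((Set.toFinite _).insert _)
  rw [Set.ncard_image_of_injective _ Subtype.val_injective] at h2
  have h3 := Set.ncard_insert_le u.1.tail ((fun a : Fin b => a :: u.1) '' Set.univ)
  have h4 := Set.ncard_image_le (f := fun a : Fin b => a :: u.1) (Set.toFinite Set.univ)
  rw [Set.ncard_univ, Nat.card_eq_fintype_card, Fintype.card_fin] at h4
  omega

theorem TV_card (b r : ℕ) : b ^ r ≤ Fintype.card (TV b r) := by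
  have h := Fintype.card_le_of_injective (fun f : Fin r → Fin b =>
    (⟨List.ofFn f, by rw [List.length_ofFn]⟩ : TV b r)) (by
      intro f g hfg
      exact List.ofFn_injective (congrArg Subtype.val hfg))
  rw [Fintype.card_fun, Fintype.card_fin, Fintype.card_fin] at h
  exact h

/-- the `k`-tree containing the tree -/
def KT (k b r : ℕ) : SimpleGraph (Fin k ⊕ TV b r) where
  Adj x y := match x, y with
    | Sum.inl i, Sum.inl j => i ≠ j
    | Sum.inl i, Sum.inr l => l.1 = [] ∨ i.val ≠ 0
    | Sum.inr l, Sum.inl i => l.1 = [] ∨ i.val ≠ 0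
    | Sum.inr l, Sum.inr l' => (TG b r).Adj l l'
  symm := ⟨fun x y h => by
    rcases x with i | l <;> rcases y with j | l'
    · exact Ne.symm h
    · exact h
    · exact h
    · exact (TG b r).adj_symm h⟩
  loopless := ⟨fun x h => by
    rcases x with i | l
    · exact h rfl
    · exact (TG b r).loopless.1 _ h⟩

theorem TG_partial {k : ℕ} (hk : 1 ≤ k) (b r : ℕ) : IsPartialKTree k (TG b r) := by
  classical
  refine ⟨Fin k ⊕ TV b r, inferInstance, KT k b r, Sum.inr, ?_, Sum.inr_injective,
    fun u v h => h⟩
  obtain ⟨N, e, he, heN⟩ : ∃ (N : ℕ) (e : TV b r → ℕ), Function.Injective e ∧ ∀ l, e l < N :=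
    ⟨Fintype.card (TV b r), fun l => (Fintype.equivFin (TV b r) l).val,
      fun x y h => (Fintype.equivFin (TV b r)).injective (Fin.ext h),
      fun l => (Fintype.equivFin (TV b r) l).isLt⟩
  let ρ : Fin k ⊕ TV b r → ℕ := fun x => match x with
    | Sum.inl i => i.val
    | Sum.inr l => k + (l.1.length * N + e l)
  have hρl : ∀ i : Fin k, ρ (Sum.inl i) = i.val := fun _ => rfl
  have hρr : ∀ l : TV b r, ρ (Sum.inr l) = k + (l.1.length * N + e l) := fun _ => rfl
  have hlen : ∀ l l' : TV b r, l.1.length < l'.1.length → ρ (Sum.inr l) < ρ (Sum.inr l') := by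
    intro l l' h
    rw [hρr, hρr]
    have h1 : (l.1.length + 1) * N ≤ l'.1.length * N := Nat.mul_le_mul_right _ h
    have h2 := heN l
    have h3 : (l.1.length + 1) * N = l.1.length * N + N := by ring
    omega
  refine ⟨ρ, univ.image Sum.inl ∪ {Sum.inr (rt b r)}, ?_, ?_, ?_, ?_, ?_⟩
  · rintro (i | l) (j | l') h
    · rw [hρl, hρl] at h
      rw [Fin.ext h]
    · rw [hρl, hρr] at h
      have := i.isLt
      omega
    · rw [hρl, hρr] at h
      have := j.isLt
      omega
    · have h1 : l.1.length = l'.1.length := by
        rcases lt_trichotomy l.1.length l'.1.length with h2 | h2 | h2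
        · exact absurd h (hlen _ _ h2).ne
        · exact h2
        · exact absurd h (hlen _ _ h2).ne'
      rw [hρr, hρr, h1] at h
      rw [he (by omega : e l = e l')]
  · rw [card_union_of_disjoint, card_image_of_injective _ Sum.inl_injective, card_univ,
      Fintype.card_fin, card_singleton]
    rw [disjoint_singleton_right, mem_image]
    rintro ⟨i, -, h⟩
    exact Sum.inl_ne_inr h
  · intro x hx y hy hxy
    rw [mem_coe, mem_union, mem_image, mem_singleton] at hx hy
    rcases hx with ⟨i, -, rfl⟩ | rfl <;> rcases hy with ⟨j, -, rfl⟩ | rfl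
    · exact fun h => hxy (by rw [h])
    · exact Or.inl rfl
    · exact Or.inl rfl
    · exact absurd rfl hxy
  · intro x hx y hy
    rw [mem_union, mem_image, mem_singleton] at hx
    rw [mem_union, mem_image, mem_singleton, not_or] at hy
    rcases y with j | l'
    · exact absurd ⟨j, mem_univ _, rfl⟩ hy.1
    · have hne : l'.1 ≠ [] := fun h => hy.2 (by rw [show l' = rt b r from Subtype.ext h])
      rcases hx with ⟨i, -, rfl⟩ | rfl
      · rw [hρl, hρr]
        have := i.isLt
        omega
      · exact hlen _ _ (by
          rw [show (rt b r).1 = [] from rfl, List.length_nil]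
          exact List.length_pos_iff.2 hne)
  · intro y hy
    rw [mem_union, mem_image, mem_singleton, not_or] at hy
    rcases y with j | l
    · exact absurd ⟨j, mem_univ _, rfl⟩ hy.1
    · have hne : l.1 ≠ [] := fun h => hy.2 (by rw [show l = rt b r from Subtype.ext h])
      obtain ⟨a, t, hat⟩ := List.exists_cons_of_ne_nil hne
      have htr : t.length ≤ r := by
        have := l.2
        rw [hat, List.length_cons] at this
        omega
      have hset : {u | (KT k b r).Adj (Sum.inr l) u ∧ ρ u < ρ (Sum.inr l)} =
          ((((univ : Finset (Fin k)).erase ⟨0, hk⟩).image Sum.inl ∪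
            {Sum.inr (⟨t, htr⟩ : TV b r)} : Finset (Fin k ⊕ TV b r)) : Set _) := by
        ext u
        rw [mem_coe, mem_union, mem_image, mem_singleton]
        rcases u with i | l'
        · constructor
          · rintro ⟨h, -⟩
            left
            rcases h with h | h
            · exact absurd h hne
            · exact ⟨i, mem_erase.2 ⟨fun h' => h (by rw [h']), mem_univ _⟩, rfl⟩
          · rintro (⟨i', hi', h⟩ | h)
            · obtain rfl := Sum.inl_injective h
              refine ⟨Or.inr (fun h' => (mem_erase.1 hi').1 (Fin.ext h')), ?_⟩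
              rw [hρl, hρr]
              have := i'.isLt
              omega
            · exact absurd h Sum.inl_ne_inr
        · constructor
          · rintro ⟨h, hlt⟩
            right
            rcases h with ⟨a', h⟩ | ⟨a', h⟩
            · rw [hat] at h
              obtain ⟨-, h⟩ := List.cons.inj h
              rw [show l' = ⟨t, htr⟩ from Subtype.ext h.symm]
            · exfalso
              have := hlen l l' (by rw [h, List.length_cons]; omega)
              omega
          · rintro (⟨i', -, h⟩ | h)
            · exact absurd h Sum.inl_ne_inr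
            · obtain rfl := Sum.inr_injective h
              refine ⟨Or.inl ⟨a, hat⟩, hlen _ _ ?_⟩
              change t.length < l.1.length
              rw [hat, List.length_cons]
              omega
      rw [hset]
      constructor
      · rw [Set.ncard_coe_finset, card_union_of_disjoint,
          card_image_of_injective _ Sum.inl_injective, card_erase_of_mem (mem_univ _), card_univ,
          Fintype.card_fin, card_singleton]
        · omega
        · rw [disjoint_singleton_right, mem_image]
          rintro ⟨i, -, h⟩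
          exact Sum.inl_ne_inr h
      · intro x hx y hy hxy
        rw [mem_coe, mem_union, mem_image, mem_singleton] at hx hy
        rcases hx with ⟨i, hi, rfl⟩ | rfl <;> rcases hy with ⟨j, hj, rfl⟩ | rfl
        · exact fun h => hxy (by rw [h])
        · exact Or.inr (fun h' => (mem_erase.1 hi).1 (Fin.ext h'))
        · exact Or.inr (fun h' => (mem_erase.1 hj).1 (Fin.ext h'))
        · exact absurd rfl hxy

theorem lower {V : Type} [Fintype V] [Nonempty V] {H : SimpleGraph V}
    (hH : ∀ u v, u ≠ v → H.Adj u v) : Fintype.card V ≤ colg H := by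
  classical
  have hne : {s | Forces H s (Fintype.card V) ∅ true}.Nonempty := by
    refine ⟨3 * Fintype.card V + 3, ?_⟩
    refine forces_start (σ := fun v => (Fintype.equivFin V v).val)
      (fun x y h => (Fintype.equivFin V).injective (Fin.ext h)) ?_
    intro y
    refine (Set.ncard_le_ncard (Set.subset_univ _) (Set.toFinite _)).trans ?_
    rw [Set.ncard_univ, Nat.card_eq_fintype_card]
  have hmem := Nat.sInf_mem hne
  have hpos : 0 < Fintype.card V := Fintype.card_pos
  obtain ⟨n, hn⟩ : ∃ n, Fintype.card V = n + 1 := ⟨Fintype.card V - 1, by omega⟩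
  have h1 : Forces H (colg H) (Fintype.card V) ∅ true := hmem
  rw [hn] at h1
  exact forces_complete hH n ∅ true (by simp [hn]) h1

/-- **Order of growth.** For all `k, m ≥ 1` there are positive constants `c`, `C` such that
`c * Δ ^ ⌊m/2⌋ ≤ f_{k,m}(Δ) ≤ C * Δ ^ ⌊m/2⌋` for all `Δ ≥ 1` (and the game colouring numbers of
which `f_{k,m}(Δ)` is the supremum are bounded) -/
theorem result : ∀ k m : ℕ, 1 ≤ k → 1 ≤ m → ∃ c C : ℝ, 0 < c ∧ 0 < C ∧ ∀ Δ : ℕ, 1 ≤ Δ →
    BddAbove {s | ∃ (V : Type) (_ : Fintype V) (G : SimpleGraph V), IsPartialKTree k G ∧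
      (∀ v, (G.neighborSet v).ncard ≤ Δ) ∧ s = colg (power G m)} ∧
    c * (Δ : ℝ) ^ (m / 2) ≤ fkm k m Δ ∧ (fkm k m Δ : ℝ) ≤ C * (Δ : ℝ) ^ (m / 2) := by
  intro k m hk _
  refine ⟨1 / 2 ^ (m / 2), 3 * (wb k (2 * m + m / 2) * (m / 2 + 1 : ℕ)) + 3, by positivity,
    by positivity, ?_⟩
  intro Δ hΔ
  have hup : ∀ s ∈ {s | ∃ (V : Type) (_ : Fintype V) (G : SimpleGraph V), IsPartialKTree k G ∧
      (∀ v, (G.neighborSet v).ncard ≤ Δ) ∧ s = colg (power G m)},
      s ≤ 3 * (wb k (2 * m + m / 2) * ((m / 2 + 1) * Δ ^ (m / 2))) + 3 := by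
    rintro s ⟨V, _, G, hG, hdeg, rfl⟩
    exact upper hΔ hG hdeg
  have hbdd : BddAbove {s | ∃ (V : Type) (_ : Fintype V) (G : SimpleGraph V),
      IsPartialKTree k G ∧ (∀ v, (G.neighborSet v).ncard ≤ Δ) ∧ s = colg (power G m)} :=
    ⟨_, hup⟩
  have hmem : colg (power (TG (Δ - 1) (m / 2)) m) ∈
      {s | ∃ (V : Type) (_ : Fintype V) (G : SimpleGraph V), IsPartialKTree k G ∧
      (∀ v, (G.neighborSet v).ncard ≤ Δ) ∧ s = colg (power G m)} :=
    ⟨TV (Δ - 1) (m / 2), inferInstance, TG (Δ - 1) (m / 2), TG_partial hk _ _,
      fun v => (TG_deg v).trans (by omega), rfl⟩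
  refine ⟨hbdd, ?_, ?_⟩
  · have h1 : colg (power (TG (Δ - 1) (m / 2)) m) ≤ fkm k m Δ := le_csSup hbdd hmem
    have : Nonempty (TV (Δ - 1) (m / 2)) := ⟨rt _ _⟩
    have h2 : Fintype.card (TV (Δ - 1) (m / 2)) ≤ colg (power (TG (Δ - 1) (m / 2)) m) :=
      lower (fun u v huv => TG_power (by omega) u v huv)
    have h3 : Δ ^ (m / 2) ≤ 2 ^ (m / 2) * Fintype.card (TV (Δ - 1) (m / 2)) := by
      rcases Nat.eq_or_lt_of_le hΔ with h | h
      · have hpos : 1 ≤ Fintype.card (TV (Δ - 1) (m / 2)) := Fintype.card_pos
        have h4 : 1 ≤ 2 ^ (m / 2) := Nat.one_le_two_pow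
        calc Δ ^ (m / 2) = 1 := by rw [← h, one_pow]
          _ ≤ 2 ^ (m / 2) * Fintype.card (TV (Δ - 1) (m / 2)) := Nat.mul_pos h4 hpos
      · calc Δ ^ (m / 2) ≤ (2 * (Δ - 1)) ^ (m / 2) := Nat.pow_le_pow_left (by omega) _
          _ = 2 ^ (m / 2) * (Δ - 1) ^ (m / 2) := mul_pow _ _ _
          _ ≤ _ := Nat.mul_le_mul_left _ (TV_card _ _)
    have h4 : Δ ^ (m / 2) ≤ 2 ^ (m / 2) * fkm k m Δ :=
      h3.trans (Nat.mul_le_mul_left _ (h2.trans h1))
    have h5 : (Δ : ℝ) ^ (m / 2) ≤ 2 ^ (m / 2) * (fkm k m Δ : ℝ) := by exact_mod_cast h4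
    rw [one_div, inv_mul_le_iff₀ (by positivity)]
    exact h5
  · have h1 : fkm k m Δ ≤ 3 * (wb k (2 * m + m / 2) * ((m / 2 + 1) * Δ ^ (m / 2))) + 3 :=
      csSup_le ⟨_, hmem⟩ hup
    have h2 : 1 ≤ Δ ^ (m / 2) := Nat.one_le_pow _ _ hΔ
    have h3 : fkm k m Δ ≤ (3 * (wb k (2 * m + m / 2) * (m / 2 + 1)) + 3) * Δ ^ (m / 2) := by
      calc fkm k m Δ ≤ 3 * (wb k (2 * m + m / 2) * ((m / 2 + 1) * Δ ^ (m / 2))) + 3 := h1
        _ ≤ 3 * (wb k (2 * m + m / 2) * ((m / 2 + 1) * Δ ^ (m / 2))) + 3 * Δ ^ (m / 2) := by
          omega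
        _ = _ := by ring
    exact_mod_cast h3

end Pool.Agent.Results.MP_c9f8d2_co.OrderOfGrowth
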